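import Mathlib

/-!
# Decomposable circuits

Boolean circuits in negation normal form whose conjunctions are decomposable (DNNF): the two inputs
of a conjunction do not depend on a common variable.
-/

set_option autoImplicit false

namespace Pool.Agent.L5helper90.DN

/-- A gate that has `i` gates before it: a constant, a literal (the variable `v` has the value `b`),
the disjunction of a set of earlier gates, or the conjunction of two earlier gates. -/
inductive Node (V : Type) (i : ℕ) : Type
  | const (b : Bool)
  | lit (v : V) (b : Bool)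
  | or (S : Finset (Fin i))
  | and (j l : Fin i)

/-- A circuit in negation normal form with the variables `V`: its gates, in topological order, and
its output gate. -/
structure Circ (V : Type) where
  size : ℕ
  node : ∀ i : Fin size, Node V i
  out : Fin size

variable {V : Type}

namespace Circ

/-- An earlier gate. -/
def low (C : Circ V) (i : Fin C.size) (j : Fin i) : Fin C.size := ⟨j, j.isLt.trans i.isLt⟩

theorem low_lt (C : Circ V) (i : Fin C.size) (j : Fin i) : (C.low i j : ℕ) < i := j.isLt

/-- The gate `i` is true for the input `x`. -/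
def Val (C : Circ V) (x : V → Bool) (i : Fin C.size) : Prop :=
  match C.node i with
  | .const b => b = true
  | .lit v b => x v = b
  | .or S => ∃ j ∈ S, C.Val x (C.low i j)
  | .and j l => C.Val x (C.low i j) ∧ C.Val x (C.low i l)
termination_by i.val
decreasing_by all_goals exact C.low_lt i _

/-- The variables below the gate `i`. -/
def Vars (C : Circ V) (i : Fin C.size) : Set V :=
  match C.node i with
  | .const _ => ∅
  | .lit v _ => {v}
  | .or S => ⋃ j ∈ S, C.Vars (C.low i j)
  | .and j l => C.Vars (C.low i j) ∪ C.Vars (C.low i l)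
termination_by i.val
decreasing_by all_goals exact C.low_lt i _

/-- The two inputs of a conjunction have no variable in common. -/
def Decomposable (C : Circ V) : Prop :=
  ∀ (i : Fin C.size) (j l : Fin i), C.node i = .and j l →
    Disjoint (C.Vars (C.low i j)) (C.Vars (C.low i l))

theorem val_const {C : Circ V} {x : V → Bool} {i : Fin C.size} {b : Bool}
    (h : C.node i = .const b) : C.Val x i ↔ b = true := by
  rw [Val, h]

theorem val_lit {C : Circ V} {x : V → Bool} {i : Fin C.size} {v : V} {b : Bool}
    (h : C.node i = .lit v b) : C.Val x i ↔ x v = b := by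
  rw [Val, h]

theorem val_or {C : Circ V} {x : V → Bool} {i : Fin C.size} {S : Finset (Fin i)}
    (h : C.node i = .or S) : C.Val x i ↔ ∃ j ∈ S, C.Val x (C.low i j) := by
  rw [Val, h]

theorem val_and {C : Circ V} {x : V → Bool} {i : Fin C.size} {j l : Fin i}
    (h : C.node i = .and j l) : C.Val x i ↔ C.Val x (C.low i j) ∧ C.Val x (C.low i l) := by
  rw [Val, h]

theorem vars_const {C : Circ V} {i : Fin C.size} {b : Bool}
    (h : C.node i = .const b) : C.Vars i = ∅ := by
  rw [Vars, h]

theorem vars_lit {C : Circ V} {i : Fin C.size} {v : V} {b : Bool}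
    (h : C.node i = .lit v b) : C.Vars i = {v} := by
  rw [Vars, h]

theorem vars_or {C : Circ V} {i : Fin C.size} {S : Finset (Fin i)}
    (h : C.node i = .or S) : C.Vars i = ⋃ j ∈ S, C.Vars (C.low i j) := by
  rw [Vars, h]

theorem vars_and {C : Circ V} {i : Fin C.size} {j l : Fin i}
    (h : C.node i = .and j l) : C.Vars i = C.Vars (C.low i j) ∪ C.Vars (C.low i l) := by
  rw [Vars, h]

/-- The value of a gate depends only on the variables below it. -/
theorem val_congr (C : Circ V) {x y : V → Bool} (i : Fin C.size)
    (h : ∀ v ∈ C.Vars i, x v = y v) : C.Val x i ↔ C.Val y i := by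
  induction hn : (i : ℕ) using Nat.strong_induction_on generalizing i with
  | _ n ih =>
    subst hn
    rcases hc : C.node i with b | ⟨v, b⟩ | S | ⟨j, l⟩
    · rw [val_const hc, val_const hc]
    · rw [val_lit hc, val_lit hc, h v (by rw [vars_lit hc]; rfl)]
    · rw [val_or hc, val_or hc]
      refine exists_congr fun j => and_congr_right fun hj => ?_
      refine ih _ (C.low_lt i j) _ (fun v hv => h v ?_) rfl
      rw [vars_or hc]
      exact Set.mem_biUnion hj hv
    · rw [val_and hc, val_and hc]
      refine and_congr (ih _ (C.low_lt i j) _ (fun v hv => h v ?_) rfl)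
        (ih _ (C.low_lt i l) _ (fun v hv => h v ?_) rfl)
      · rw [vars_and hc]
        exact Or.inl hv
      · rw [vars_and hc]
        exact Or.inr hv

end Circ

open Classical in
/-- The input that is `y` on `S` and `x` elsewhere. -/
noncomputable def mix (S : Set V) (y x : V → Bool) : V → Bool := fun v => if v ∈ S then y v else x v

theorem mix_mem {S : Set V} {y x : V → Bool} {v : V} (h : v ∈ S) : mix S y x v = y v := by
  simp [mix, h]

theorem mix_not_mem {S : Set V} {y x : V → Bool} {v : V} (h : v ∉ S) : mix S y x v = x v := by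
  simp [mix, h]

namespace Circ

/-- Whatever makes the gate `i` true makes the circuit true, if the other variables are as in
`x`. -/
def Ctx (C : Circ V) (x : V → Bool) (i : Fin C.size) : Prop :=
  ∀ y, C.Val y i → C.Val (mix (C.Vars i) y x) C.out

theorem ctx_out (C : Circ V) (x : V → Bool) : C.Ctx x C.out := by
  intro y hy
  refine (C.val_congr C.out fun v hv => ?_).2 hy
  rw [mix_mem hv]

theorem ctx_or {C : Circ V} {x : V → Bool} {i : Fin C.size} {S : Finset (Fin i)}
    (h : C.node i = .or S) {j : Fin i} (hj : j ∈ S) (hx : C.Ctx x i) : C.Ctx x (C.low i j) := by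
  intro y hy
  have hsub : C.Vars (C.low i j) ⊆ C.Vars i := by
    rw [vars_or h]
    exact fun v hv => Set.mem_biUnion hj hv
  have h1 : C.Val (mix (C.Vars (C.low i j)) y x) (C.low i j) :=
    (C.val_congr _ fun v hv => by rw [mix_mem hv]).2 hy
  have h2 : C.Val (mix (C.Vars (C.low i j)) y x) i := (val_or h).2 ⟨j, hj, h1⟩
  have h3 := hx _ h2
  have h4 : mix (C.Vars i) (mix (C.Vars (C.low i j)) y x) x = mix (C.Vars (C.low i j)) y x := by
    funext v
    by_cases hv : v ∈ C.Vars i
    · rw [mix_mem hv]
    · rw [mix_not_mem hv, mix_not_mem (fun h' => hv (hsub h'))]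
  rwa [h4] at h3

theorem ctx_and {C : Circ V} (hC : C.Decomposable) {x : V → Bool} {i : Fin C.size} {j l : Fin i}
    (h : C.node i = .and j l) (hx : C.Ctx x i) (h1 : C.Val x (C.low i j))
    (h2 : C.Val x (C.low i l)) : C.Ctx x (C.low i j) ∧ C.Ctx x (C.low i l) := by
  have hd := hC i j l h
  have hsj : C.Vars (C.low i j) ⊆ C.Vars i := by
    rw [vars_and h]
    exact Set.subset_union_left
  have hsl : C.Vars (C.low i l) ⊆ C.Vars i := by
    rw [vars_and h]
    exact Set.subset_union_right
  constructor
  · intro y hy
    have e1 : C.Val (mix (C.Vars (C.low i j)) y x) (C.low i j) :=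
      (C.val_congr _ fun v hv => by rw [mix_mem hv]).2 hy
    have e2 : C.Val (mix (C.Vars (C.low i j)) y x) (C.low i l) :=
      (C.val_congr _ fun v hv => by
        rw [mix_not_mem (fun h' => Set.disjoint_left.1 hd h' hv)]).2 h2
    have e3 := hx _ ((val_and h).2 ⟨e1, e2⟩)
    have e4 : mix (C.Vars i) (mix (C.Vars (C.low i j)) y x) x
        = mix (C.Vars (C.low i j)) y x := by
      funext v
      by_cases hv : v ∈ C.Vars i
      · rw [mix_mem hv]
      · rw [mix_not_mem hv, mix_not_mem (fun h' => hv (hsj h'))]
    rwa [e4] at e3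
  · intro y hy
    have e1 : C.Val (mix (C.Vars (C.low i l)) y x) (C.low i l) :=
      (C.val_congr _ fun v hv => by rw [mix_mem hv]).2 hy
    have e2 : C.Val (mix (C.Vars (C.low i l)) y x) (C.low i j) :=
      (C.val_congr _ fun v hv => by
        rw [mix_not_mem (fun h' => Set.disjoint_left.1 hd hv h')]).2 h1
    have e3 := hx _ ((val_and h).2 ⟨e2, e1⟩)
    have e4 : mix (C.Vars i) (mix (C.Vars (C.low i l)) y x) x
        = mix (C.Vars (C.low i l)) y x := by
      funext v
      by_cases hv : v ∈ C.Vars i
      · rw [mix_mem hv]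
      · rw [mix_not_mem hv, mix_not_mem (fun h' => hv (hsl h'))]
    rwa [e4] at e3

/-- An essential variable below a gate is below the true input of the gate. -/
theorem ess_or {C : Circ V} {x : V → Bool} {i : Fin C.size} {S : Finset (Fin i)}
    (h : C.node i = .or S) {j : Fin i} (hj : j ∈ S) (hx : C.Ctx x i)
    (h1 : C.Val x (C.low i j)) {e : V}
    (he : ∀ z : V → Bool, (∀ v, v ≠ e → z v = x v) → z e = false → ¬ C.Val z C.out)
    (hei : e ∈ C.Vars i) : e ∈ C.Vars (C.low i j) := by
  classical
  by_contra hn
  have e1 : C.Val (Function.update x e false) (C.low i j) := by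
    refine (C.val_congr _ fun v hv => ?_).2 h1
    rw [Function.update_of_ne]
    rintro rfl
    exact hn hv
  have e2 := hx _ ((val_or h).2 ⟨j, hj, e1⟩)
  refine he _ (fun v hv => ?_) ?_ e2
  · by_cases h' : v ∈ C.Vars i
    · rw [mix_mem h', Function.update_of_ne hv]
    · rw [mix_not_mem h']
  · rw [mix_mem hei, Function.update_self]

theorem ess_out {C : Circ V} {x : V → Bool} (h1 : C.Val x C.out) {e : V}
    (he : ∀ z : V → Bool, (∀ v, v ≠ e → z v = x v) → z e = false → ¬ C.Val z C.out) :
    e ∈ C.Vars C.out := by
  classical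
  by_contra hn
  refine he (Function.update x e false) (fun v hv => Function.update_of_ne hv _ _)
    (Function.update_self _ _ _) ?_
  refine (C.val_congr _ fun v hv => ?_).2 h1
  rw [Function.update_of_ne]
  rintro rfl
  exact hn hv

open Classical in
/-- Some gate sees a balanced part of the essential variables. -/
theorem exists_gate {C : Circ V} (hC : C.Decomposable) {x : V → Bool} (W : Finset V)
    (hW : ∀ e ∈ W, ∀ z : V → Bool, (∀ v, v ≠ e → z v = x v) → z e = false → ¬ C.Val z C.out)
    {T : ℕ} (hT : 1 ≤ T) (i : Fin C.size) (hv : C.Val x i) (hx : C.Ctx x i)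
    (hi : T < (W.filter (· ∈ C.Vars i)).card) :
    ∃ g : Fin C.size, C.Val x g ∧ C.Ctx x g ∧ T < 2 * (W.filter (· ∈ C.Vars g)).card ∧
      (W.filter (· ∈ C.Vars g)).card ≤ T := by
  induction hn : (i : ℕ) using Nat.strong_induction_on generalizing i with
  | _ n ih =>
    subst hn
    rcases hc : C.node i with b | ⟨v, b⟩ | S | ⟨j, l⟩
    · rw [vars_const hc] at hi
      simp at hi
    · rw [vars_lit hc] at hi
      refine absurd hi (not_lt.2 (le_trans ?_ hT))
      rw [Finset.card_le_one]
      intro a ha b hb
      simp only [Finset.mem_filter, Set.mem_singleton_iff] at ha hb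
      rw [ha.2, hb.2]
    · obtain ⟨j, hj, hvj⟩ := (val_or hc).1 hv
      refine ih _ (C.low_lt i j) (C.low i j) hvj (ctx_or hc hj hx) ?_ rfl
      refine hi.trans_le (Finset.card_le_card fun e he => ?_)
      rw [Finset.mem_filter] at he ⊢
      exact ⟨he.1, ess_or hc hj hx hvj (hW e he.1) he.2⟩
    · obtain ⟨hvj, hvl⟩ := (val_and hc).1 hv
      obtain ⟨hxj, hxl⟩ := ctx_and hC hc hx hvj hvl
      have hle : (W.filter (· ∈ C.Vars i)).card ≤ (W.filter (· ∈ C.Vars (C.low i j))).card +
          (W.filter (· ∈ C.Vars (C.low i l))).card := by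
        refine le_trans (Finset.card_le_card fun e he => ?_) (Finset.card_union_le _ _)
        rw [Finset.mem_filter, vars_and hc] at he
        rw [Finset.mem_union, Finset.mem_filter, Finset.mem_filter]
        rcases he.2 with h | h
        · exact Or.inl ⟨he.1, h⟩
        · exact Or.inr ⟨he.1, h⟩
      rcases le_total (W.filter (· ∈ C.Vars (C.low i j))).card
        (W.filter (· ∈ C.Vars (C.low i l))).card with h | h
      · by_cases h' : (W.filter (· ∈ C.Vars (C.low i l))).card ≤ T
        · exact ⟨_, hvl, hxl, by omega, h'⟩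
        · exact ih _ (C.low_lt i l) _ hvl hxl (by omega) rfl
      · by_cases h' : (W.filter (· ∈ C.Vars (C.low i j))).card ≤ T
        · exact ⟨_, hvj, hxj, by omega, h'⟩
        · exact ih _ (C.low_lt i j) _ hvj hxj (by omega) rfl

open Classical in
/-- Some gate sees a balanced part of the essential variables. -/
theorem exists_balanced {C : Circ V} (hC : C.Decomposable) {x : V → Bool} (W : Finset V)
    (hW : ∀ e ∈ W, ∀ z : V → Bool, (∀ v, v ≠ e → z v = x v) → z e = false → ¬ C.Val z C.out)
    {T : ℕ} (hT : 1 ≤ T) (hv : C.Val x C.out) (hi : T < W.card) :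
    ∃ g : Fin C.size, C.Val x g ∧ C.Ctx x g ∧ T < 2 * (W.filter (· ∈ C.Vars g)).card ∧
      (W.filter (· ∈ C.Vars g)).card ≤ T := by
  refine exists_gate hC W hW hT C.out hv (ctx_out C x) ?_
  rwa [Finset.filter_true_of_mem fun e he => ess_out hv (hW e he)]

end Circ

end Pool.Agent.L5helper90.DN
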