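import Mathlib

/-!
# Patterns with expansion
-/

set_option autoImplicit false

namespace Pool.Agent.L5helper90.DN

open Finset

/-- The targets allowed for the functions that respect a labelling. -/
def allowed {m : ℕ} (l : Fin m → Fin 3) (v : Fin m) : Finset (Fin m) :=
  if l v = 0 then univ.filter (fun u => l u ≠ 1)
  else if l v = 1 then univ.filter (fun u => l u ≠ 0) else univ

theorem card_allowed {q : ℕ} (l : Fin (12 * q) → Fin 3)
    (h0 : 3 * q ≤ (univ.filter (fun v => l v = 0)).card)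
    (h1 : 3 * q ≤ (univ.filter (fun v => l v = 1)).card) (v : Fin (12 * q)) (hv : l v ≠ 2) :
    (allowed l v).card ≤ 9 * q := by
  have e0 := Finset.card_filter_add_card_filter_not (s := (univ : Finset (Fin (12 * q))))
    (fun v => l v = 0)
  have e1 := Finset.card_filter_add_card_filter_not (s := (univ : Finset (Fin (12 * q))))
    (fun v => l v = 1)
  rw [Finset.card_univ, Fintype.card_fin] at e0 e1
  unfold allowed
  by_cases h : l v = 0
  · rw [if_pos h]
    simp only [ne_eq]
    omega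
  · have h' : l v = 1 := by
      generalize l v = a at hv h
      revert a
      decide
    rw [if_neg h, if_pos h']
    simp only [ne_eq]
    omega

/-- Five functions such that no labelling with two large classes separates them. -/
theorem exists_pattern5 (q : ℕ) (hq : 0 < q) :
    ∃ f : Fin 5 × Fin (12 * q) → Fin (12 * q), ∀ l : Fin (12 * q) → Fin 3,
      3 * q ≤ (univ.filter (fun v => l v = 0)).card →
      3 * q ≤ (univ.filter (fun v => l v = 1)).card →
      (univ.filter (fun v => l v = 2)).card ≤ q →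
      ∃ c, (l c.2 = 0 ∧ l (f c) = 1) ∨ (l c.2 = 1 ∧ l (f c) = 0) := by
  classical
  by_contra hcon
  push Not at hcon
  set bad : (Fin (12 * q) → Fin 3) → Finset (Fin 5 × Fin (12 * q) → Fin (12 * q)) :=
    fun l => Fintype.piFinset (fun c => allowed l c.2) with hbad
  set good : Finset (Fin (12 * q) → Fin 3) := univ.filter (fun l =>
      3 * q ≤ (univ.filter (fun v => l v = 0)).card ∧
      3 * q ≤ (univ.filter (fun v => l v = 1)).card ∧
      (univ.filter (fun v => l v = 2)).card ≤ q) with hgood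
  have hsub : (univ : Finset (Fin 5 × Fin (12 * q) → Fin (12 * q))) ⊆ good.biUnion bad := by
    intro f _
    obtain ⟨l, h0, h1, h2, hc⟩ := hcon f
    rw [mem_biUnion]
    refine ⟨l, by rw [hgood, mem_filter]; exact ⟨mem_univ _, h0, h1, h2⟩, ?_⟩
    rw [hbad, Fintype.mem_piFinset]
    intro c
    unfold allowed
    split_ifs with a1 a2
    · rw [mem_filter]
      exact ⟨mem_univ _, (hc c).1 a1⟩
    · rw [mem_filter]
      exact ⟨mem_univ _, (hc c).2 a2⟩
    · exact mem_univ _
  have hb : ∀ l ∈ good, (bad l).card ≤ (9 * q) ^ (55 * q) * (12 * q) ^ (5 * q) := by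
    intro l hl
    rw [hgood, mem_filter] at hl
    obtain ⟨-, h0, h1, h2⟩ := hl
    have e1 : (bad l).card = (∏ v : Fin (12 * q), (allowed l v).card) ^ 5 := by
      rw [hbad, Fintype.card_piFinset, Fintype.prod_prod_type]
      simp
    have e2 : ∏ v : Fin (12 * q), (allowed l v).card
        ≤ (9 * q) ^ (11 * q) * (12 * q) ^ q := by
      have e3 := Finset.card_filter_add_card_filter_not (s := (univ : Finset (Fin (12 * q))))
        (fun v => l v = 2)
      rw [Finset.card_univ, Fintype.card_fin] at e3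
      rw [← Finset.prod_filter_mul_prod_filter_not univ (fun v => l v = 2)]
      have e4 : ∏ v ∈ univ.filter (fun v => l v = 2), (allowed l v).card
          ≤ (12 * q) ^ (univ.filter (fun v => l v = 2)).card := by
        refine Finset.prod_le_pow_card _ _ _ fun v _ => ?_
        refine (Finset.card_le_univ _).trans ?_
        rw [Fintype.card_fin]
      have e5 : ∏ v ∈ univ.filter (fun v => ¬ l v = 2), (allowed l v).card
          ≤ (9 * q) ^ (univ.filter (fun v => ¬ l v = 2)).card := by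
        refine Finset.prod_le_pow_card _ _ _ fun v hv => ?_
        exact card_allowed l h0 h1 v (mem_filter.1 hv).2
      refine (Nat.mul_le_mul e4 e5).trans ?_
      obtain ⟨r, hr⟩ : ∃ r, q = (univ.filter (fun v => l v = 2)).card + r :=
        Nat.exists_eq_add_of_le h2
      have e6 : (univ.filter (fun v => ¬ l v = 2)).card = 11 * q + r := by omega
      rw [e6, pow_add]
      calc (12 * q) ^ (univ.filter (fun v => l v = 2)).card * ((9 * q) ^ (11 * q) * (9 * q) ^ r)
          ≤ (12 * q) ^ (univ.filter (fun v => l v = 2)).card *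
              ((9 * q) ^ (11 * q) * (12 * q) ^ r) := by gcongr; omega
        _ = (9 * q) ^ (11 * q) * ((12 * q) ^ (univ.filter (fun v => l v = 2)).card *
              (12 * q) ^ r) := by ring
        _ = (9 * q) ^ (11 * q) * (12 * q) ^ q := by
            rw [← pow_add, ← hr]
    rw [e1]
    calc (∏ v : Fin (12 * q), (allowed l v).card) ^ 5
        ≤ ((9 * q) ^ (11 * q) * (12 * q) ^ q) ^ 5 := Nat.pow_le_pow_left e2 5
      _ = (9 * q) ^ (55 * q) * (12 * q) ^ (5 * q) := by
          rw [mul_pow, ← pow_mul, ← pow_mul]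
          congr 2 <;> ring
  have h1 := Finset.card_le_card hsub
  rw [Finset.card_univ, Fintype.card_fun, Fintype.card_prod, Fintype.card_fin, Fintype.card_fin]
    at h1
  have h2 : (good.biUnion bad).card ≤ 3 ^ (12 * q) * ((9 * q) ^ (55 * q) * (12 * q) ^ (5 * q)) := by
    refine (Finset.card_biUnion_le_card_mul _ _ _ hb).trans ?_
    refine Nat.mul_le_mul_right _ ?_
    refine (Finset.card_le_univ _).trans ?_
    simp
  have h3 := h1.trans h2
  have h4 : ((12 * q) ^ 60) ^ q ≤ (3 ^ 12 * (9 * q) ^ 55 * (12 * q) ^ 5) ^ q := by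
    calc ((12 * q) ^ 60) ^ q = (12 * q) ^ (5 * (12 * q)) := by
          rw [← pow_mul]
          congr 1
          ring
      _ ≤ 3 ^ (12 * q) * ((9 * q) ^ (55 * q) * (12 * q) ^ (5 * q)) := h3
      _ = (3 ^ 12 * (9 * q) ^ 55 * (12 * q) ^ 5) ^ q := by
          rw [mul_pow (3 ^ 12 * (9 * q) ^ 55), mul_pow (3 ^ 12), ← pow_mul, ← pow_mul, ← pow_mul,
            mul_assoc]
  have h5 := (Nat.pow_le_pow_iff_left hq.ne').1 h4
  have h6 : 12 ^ 60 * q ^ 60 ≤ (3 ^ 12 * 9 ^ 55 * 12 ^ 5) * q ^ 60 := by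
    calc 12 ^ 60 * q ^ 60 = (12 * q) ^ 60 := by rw [mul_pow]
      _ ≤ _ := h5
      _ = (3 ^ 12 * 9 ^ 55 * 12 ^ 5) * q ^ 60 := by ring
  have h7 := Nat.le_of_mul_le_mul_right h6 (pow_pos hq 60)
  norm_num at h7

/-- The pattern: six functions, the first one the identity; every balanced set of pairs
(function, place) is inconsistent at `q` places or more. -/
theorem exists_pattern (q : ℕ) (hq : 0 < q) :
    ∃ f : Fin 6 × Fin (12 * q) → Fin (12 * q), (∀ v, f (0, v) = v) ∧
      ∀ A : Finset (Fin 6 × Fin (12 * q)), 24 * q ≤ A.card → A.card ≤ 48 * q →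
        q ≤ (univ.filter (fun v : Fin (12 * q) => ∃ c, (c.2 = v ∨ f c = v) ∧
          ¬ (c ∈ A ↔ ((0, v) : Fin 6 × Fin (12 * q)) ∈ A))).card := by
  classical
  obtain ⟨f, hf⟩ := exists_pattern5 q hq
  set g : Fin 6 × Fin (12 * q) → Fin (12 * q) :=
    fun c => Fin.cases (motive := fun _ => Fin (12 * q)) c.2 (fun i => f (i, c.2)) c.1 with hg
  refine ⟨g, fun v => rfl, fun A hA1 hA2 => ?_⟩
  by_contra hlt
  rw [not_le] at hlt
  set D : Finset (Fin (12 * q)) := univ.filter (fun v : Fin (12 * q) =>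
    ∃ c, (c.2 = v ∨ g c = v) ∧ ¬ (c ∈ A ↔ ((0, v) : Fin 6 × Fin (12 * q)) ∈ A)) with hD
  have hnD : ∀ v, v ∉ D → ∀ c, (c.2 = v ∨ g c = v) →
      (c ∈ A ↔ ((0, v) : Fin 6 × Fin (12 * q)) ∈ A) := by
    intro v hv c hc
    by_contra h
    exact hv (by rw [hD, mem_filter]; exact ⟨mem_univ _, c, hc, h⟩)
  set l : Fin (12 * q) → Fin 3 := fun v => if v ∈ D then 2 else
    if ((0, v) : Fin 6 × Fin (12 * q)) ∈ A then 0 else 1 with hl
  have hl2 : ∀ v, l v = 2 ↔ v ∈ D := by
    intro v
    rw [hl]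
    by_cases h : v ∈ D
    · simp [h]
    · simp only [h, if_false, iff_false]
      split_ifs <;> decide
  have hl0 : ∀ v, l v = 0 → v ∉ D ∧ ((0, v) : Fin 6 × Fin (12 * q)) ∈ A := by
    intro v hv
    rw [hl] at hv
    simp only at hv
    split_ifs at hv with h1 h2
    · exact absurd hv (by decide)
    · exact ⟨h1, h2⟩
    · exact absurd hv (by decide)
  have hl1 : ∀ v, l v = 1 → v ∉ D ∧ ((0, v) : Fin 6 × Fin (12 * q)) ∉ A := by
    intro v hv
    rw [hl] at hv
    simp only at hv
    split_ifs at hv with h1 h2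
    · exact absurd hv (by decide)
    · exact absurd hv (by decide)
    · exact ⟨h1, h2⟩
  have hl01 : ∀ v, v ∉ D → (((0, v) : Fin 6 × Fin (12 * q)) ∈ A → l v = 0) ∧
      (((0, v) : Fin 6 × Fin (12 * q)) ∉ A → l v = 1) := by
    intro v hv
    rw [hl]
    simp only [hv, if_false]
    constructor
    · intro h
      rw [if_pos h]
    · intro h
      rw [if_neg h]
  have c2 : (univ.filter (fun v => l v = 2)).card < q := by
    rwa [show (univ.filter (fun v => l v = 2)) = D from by
      ext v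
      rw [mem_filter, hl2]
      exact ⟨fun h => h.2, fun h => ⟨mem_univ _, h⟩⟩]
  -- the two classes are large
  have key : ∀ (B : Finset (Fin 6 × Fin (12 * q))) (a : Fin 3), 24 * q ≤ B.card →
      (∀ c ∈ B, l c.2 = a ∨ l c.2 = 2) → 3 * q ≤ (univ.filter (fun v => l v = a)).card := by
    intro B a hB hBc
    have e1 : B ⊆ (univ : Finset (Fin 6)) ×ˢ
        (univ.filter (fun v => l v = a) ∪ univ.filter (fun v => l v = 2)) := by
      intro c hc
      rw [mem_product, mem_union, mem_filter, mem_filter]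
      refine ⟨mem_univ _, ?_⟩
      rcases hBc c hc with h | h
      · exact Or.inl ⟨mem_univ _, h⟩
      · exact Or.inr ⟨mem_univ _, h⟩
    have e2 := Finset.card_le_card e1
    rw [card_product, Finset.card_univ, Fintype.card_fin] at e2
    have e3 := Finset.card_union_le (univ.filter (fun v => l v = a)) (univ.filter (fun v => l v = 2))
    omega
  have k0 : 3 * q ≤ (univ.filter (fun v => l v = 0)).card := by
    refine key A 0 hA1 fun c hc => ?_
    by_cases h : c.2 ∈ D
    · exact Or.inr ((hl2 _).2 h)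
    · exact Or.inl ((hl01 _ h).1 ((hnD _ h c (Or.inl rfl)).1 hc))
  have k1 : 3 * q ≤ (univ.filter (fun v => l v = 1)).card := by
    refine key Aᶜ 1 ?_ fun c hc => ?_
    · rw [card_compl, Fintype.card_prod, Fintype.card_fin, Fintype.card_fin]
      omega
    · by_cases h : c.2 ∈ D
      · exact Or.inr ((hl2 _).2 h)
      · refine Or.inl ((hl01 _ h).2 fun h' => ?_)
        rw [mem_compl] at hc
        exact hc ((hnD _ h c (Or.inl rfl)).2 h')
  obtain ⟨⟨i, v⟩, hc⟩ := hf l k0 k1 c2.le
  have hgi : g (i.succ, v) = f (i, v) := rfl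
  rcases hc with ⟨ha, hb⟩ | ⟨ha, hb⟩
  · obtain ⟨ha1, ha2⟩ := hl0 _ ha
    obtain ⟨hb1, hb2⟩ := hl1 _ hb
    exact hb2 ((hnD _ hb1 (i.succ, v) (Or.inr hgi)).1 ((hnD _ ha1 (i.succ, v) (Or.inl rfl)).2 ha2))
  · obtain ⟨ha1, ha2⟩ := hl1 _ ha
    obtain ⟨hb1, hb2⟩ := hl0 _ hb
    exact ha2 ((hnD _ ha1 (i.succ, v) (Or.inl rfl)).1 ((hnD _ hb1 (i.succ, v) (Or.inr hgi)).2 hb2))

end Pool.Agent.L5helper90.DN
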