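import Pool.Agent.L5helper58.KS.Tab

/-!
# Machines that write a word and then walk over it
-/

set_option autoImplicit false

namespace Pool.Agent.L5helper90.DN

open Pool.Agent.L5helper58.KS

/-- The states of the first phase. -/
def wst (i : ℕ) : ℕ := if i = 0 then 0 else i + 1

theorem wst_inj {i j : ℕ} (h : wst i = wst j) : i = j := by
  unfold wst at h
  split_ifs at h <;> omega

theorem wst_ne_one (i : ℕ) : wst i ≠ 1 := by
  unfold wst
  split_ifs <;> omega

theorem wst_le (i : ℕ) : wst i ≤ i + 1 := by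
  unfold wst
  split_ifs <;> omega

/-- The transitions of our machines. First the symbols `w (L - 1), ..., w 0` are written from left
to right; then a state `L + 2 + x` with `x < v` is chosen, and the symbols are read from right to
left, with the transitions between the states given by `R`. -/
def Allowed (L v : ℕ) (w : ℕ → ℕ) (R : ℕ → ℕ → ℕ → Prop) (t : Trans) : Prop :=
  (∃ i < L, t = (wst i, 0, wst (i + 1), w (L - 1 - i), some true)) ∨
  (∃ x < v, t = (wst L, 0, L + 2 + x, 0, some false)) ∨
  (∃ x < v, ∃ y < v, ∃ s, s ≠ 0 ∧ R s x y ∧ t = (L + 2 + x, s, L + 2 + y, s, some false)) ∨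
  (∃ x < v, t = (L + 2 + x, 0, 1, 0, none))

/-- The tape after `i` steps of the first phase. -/
def tp (L : ℕ) (w : ℕ → ℕ) (i : ℕ) : ℤ → ℕ :=
  fun p => if 0 ≤ p ∧ p < i then w (L - 1 - p.toNat) else 0

theorem tp_at (L : ℕ) (w : ℕ → ℕ) (i : ℕ) : tp L w i i = 0 := by
  unfold tp
  rw [if_neg (by omega)]

theorem tp_neg (L : ℕ) (w : ℕ → ℕ) (i : ℕ) : tp L w i (-1) = 0 := by
  unfold tp
  rw [if_neg (by omega)]

theorem tp_read {L : ℕ} (w : ℕ → ℕ) {j : ℕ} (h : j < L) :
    tp L w L ((L : ℤ) - 1 - j) = w j := by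
  unfold tp
  rw [if_pos (by omega)]
  congr 1
  omega

theorem tp_succ {L : ℕ} (w : ℕ → ℕ) (i : ℕ) :
    Function.update (tp L w i) (i : ℤ) (w (L - 1 - i)) = tp L w (i + 1) := by
  funext p
  by_cases hp : p = i
  · subst hp
    rw [Function.update_self]
    unfold tp
    rw [if_pos (by omega)]
    rfl
  · rw [Function.update_of_ne hp]
    unfold tp
    by_cases h : 0 ≤ p ∧ p < i
    · rw [if_pos h, if_pos (by omega)]
    · rw [if_neg h, if_neg (by omega)]

theorem update_same (f : ℤ → ℕ) (p : ℤ) (a : ℕ) (h : f p = a) : Function.update f p a = f := by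
  rw [← h]
  exact Function.update_eq_self p f

/-- The machine with the right transitions halts. -/
theorem halts_of {M : Machine} {L : ℕ} {w : ℕ → ℕ} {X : ℕ → ℕ} (h1 : (1 : ℕ) ∈ M.2)
    (hw : ∀ i < L, (wst i, 0, wst (i + 1), w (L - 1 - i), some true) ∈ M.1)
    (hs : (wst L, 0, L + 2 + X 0, 0, some false) ∈ M.1)
    (hr : ∀ j < L, (L + 2 + X j, w j, L + 2 + X (j + 1), w j, some false) ∈ M.1)
    (he : (L + 2 + X L, 0, 1, 0, none) ∈ M.1) : Halts M (2 * L + 2) := by
  refine ⟨2 * L + 2, le_rfl, fun i => if i ≤ L then ⟨wst i, i, tp L w i⟩ else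
    if i ≤ 2 * L + 1 then ⟨L + 2 + X (i - L - 1), (L : ℤ) - 1 - ((i - L - 1 : ℕ) : ℤ), tp L w L⟩
    else ⟨1, -1, tp L w L⟩, ?_, ?_, ?_⟩
  · simp only [Nat.zero_le, if_true]
    rw [Config.mk.injEq]
    refine ⟨rfl, rfl, ?_⟩
    funext p
    unfold tp
    rw [if_neg (by push_cast; omega)]
  · intro i hi
    beta_reduce
    rcases lt_trichotomy i L with h | h | h
    · rw [if_pos h.le, if_pos (by omega : i + 1 ≤ L)]
      refine ⟨_, _, _, _, _, hw i h, rfl, tp_at L w i, ?_⟩
      rw [Config.mk.injEq]
      refine ⟨rfl, ?_, ?_⟩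
      · simp [move]
      · exact (tp_succ w i).symm
    · subst h
      rw [if_pos le_rfl, if_neg (by omega), if_pos (by omega)]
      refine ⟨_, _, _, _, _, hs, rfl, tp_at i w i, ?_⟩
      rw [Config.mk.injEq]
      refine ⟨?_, ?_, ?_⟩
      · rw [show i + 1 - i - 1 = 0 by omega]
      · rw [show i + 1 - i - 1 = 0 by omega]
        simp [move]
        ring
      · exact (update_same _ _ _ (tp_at i w i)).symm
    · rw [if_neg (by omega : ¬ i ≤ L), if_neg (by omega : ¬ i + 1 ≤ L)]
      obtain ⟨j, rfl⟩ : ∃ j, i = L + 1 + j := ⟨i - L - 1, by omega⟩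
      rw [if_pos (by omega), show L + 1 + j - L - 1 = j by omega]
      by_cases hj : j < L
      · rw [if_pos (by omega), show L + 1 + j + 1 - L - 1 = j + 1 by omega]
        refine ⟨_, _, _, _, _, hr j hj, rfl, tp_read w hj, ?_⟩
        rw [Config.mk.injEq]
        refine ⟨rfl, ?_, ?_⟩
        · simp [move]
          ring
        · exact (update_same _ _ _ (tp_read w hj)).symm
      · have hj' : j = L := by omega
        subst hj'
        rw [if_neg (by omega)]
        have e : (j : ℤ) - 1 - j = -1 := by ring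
        rw [e]
        refine ⟨_, _, _, _, _, he, rfl, tp_neg j w j, ?_⟩
        rw [Config.mk.injEq]
        refine ⟨rfl, ?_, ?_⟩
        · simp [move]
        · exact (update_same _ _ _ (tp_neg j w j)).symm
  · beta_reduce
    rw [if_neg (by omega), if_neg (by omega)]
    exact h1

/-- If such a machine halts, then the relations admit a walk. -/
theorem walk_of_halts {M : Machine} {L v : ℕ} {w : ℕ → ℕ} {R : ℕ → ℕ → ℕ → Prop} {k : ℕ}
    (hw0 : ∀ j < L, w j ≠ 0) (h2 : M.2 = [1]) (hM : ∀ t ∈ M.1, Allowed L v w R t)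
    (hH : Halts M k) : ∃ X : ℕ → ℕ, ∀ j < L, R (w j) (X j) (X (j + 1)) := by
  obtain ⟨m, -, c, hc0, hstep, hm⟩ := hH
  rw [h2, List.mem_singleton] at hm
  have A : ∀ i, i ≤ m → i ≤ L → c i = ⟨wst i, i, tp L w i⟩ := by
    intro i
    induction i with
    | zero =>
      intro _ _
      rw [hc0, Config.mk.injEq]
      refine ⟨rfl, rfl, ?_⟩
      funext p
      unfold tp
      rw [if_neg (by push_cast; omega)]
    | succ i ih =>
      intro him hiL
      have hi := ih (by omega) (by omega)
      obtain ⟨q, a, q', a', d, hmem, e1, e2, e3⟩ := hstep i (by omega)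
      rw [hi] at e1 e2 e3
      simp only at e1 e2 e3
      rw [tp_at] at e2
      rcases hM _ hmem with ⟨i', hi', h⟩ | ⟨x, hx, h⟩ | ⟨x, hx, y, hy, s, hs, hR, h⟩ | ⟨x, hx, h⟩
      · simp only [Prod.mk.injEq] at h
        obtain ⟨g1, g2, g3, g4, g5⟩ := h
        have : i' = i := wst_inj (g1.symm.trans e1.symm)
        subst this
        rw [e3, g3, g4, g5, tp_succ]
        simp [move]
      · simp only [Prod.mk.injEq] at h
        have := wst_inj (e1.trans h.1)
        omega
      · simp only [Prod.mk.injEq] at h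
        have := wst_le i
        omega
      · simp only [Prod.mk.injEq] at h
        have := wst_le i
        omega
  have hmL : L < m := by
    by_contra h
    rw [A m le_rfl (by omega)] at hm
    exact wst_ne_one _ hm
  have B : ∃ x < v, c (L + 1) = ⟨L + 2 + x, (L : ℤ) - 1, tp L w L⟩ := by
    have hi := A L hmL.le le_rfl
    obtain ⟨q, a, q', a', d, hmem, e1, e2, e3⟩ := hstep L hmL
    rw [hi] at e1 e2 e3
    simp only at e1 e2 e3
    rw [tp_at] at e2
    rcases hM _ hmem with ⟨i', hi', h⟩ | ⟨x, hx, h⟩ | ⟨x, hx, y, hy, s, hs, hR, h⟩ | ⟨x, hx, h⟩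
    · simp only [Prod.mk.injEq] at h
      have := wst_inj (e1.trans h.1)
      omega
    · simp only [Prod.mk.injEq] at h
      obtain ⟨g1, g2, g3, g4, g5⟩ := h
      refine ⟨x, hx, ?_⟩
      rw [e3, g3, g4, g5, update_same _ _ _ (tp_at L w L)]
      rw [Config.mk.injEq]
      refine ⟨rfl, ?_, rfl⟩
      simp only [move]
      ring
    · simp only [Prod.mk.injEq] at h
      have := wst_le L
      omega
    · simp only [Prod.mk.injEq] at h
      have := wst_le L
      omega
  have C : ∀ j, j ≤ L → L + 1 + j ≤ m →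
      (∃ x < v, c (L + 1 + j) = ⟨L + 2 + x, (L : ℤ) - 1 - j, tp L w L⟩) ∧
      ∀ i < j, R (w i) ((c (L + 1 + i)).state - (L + 2)) ((c (L + 1 + (i + 1))).state - (L + 2)) := by
    intro j
    induction j with
    | zero =>
      intro _ _
      refine ⟨?_, fun i hi => absurd hi (Nat.not_lt_zero i)⟩
      obtain ⟨x, hx, h⟩ := B
      exact ⟨x, hx, by simpa using h⟩
    | succ j ih =>
      intro hjL hjm
      obtain ⟨⟨x, hx, hj⟩, hR⟩ := ih (by omega) (by omega)
      obtain ⟨q, a, q', a', d, hmem, e1, e2, e3⟩ := hstep (L + 1 + j) (by omega)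
      have hj0 := hj
      rw [hj] at e1 e2 e3
      simp only at e1 e2 e3
      rw [tp_read w (by omega : j < L)] at e2
      have hwj := hw0 j (by omega)
      rcases hM _ hmem with ⟨i', hi', h⟩ | ⟨x', hx', h⟩ | ⟨x', hx', y, hy, s, hs, hR', h⟩ |
        ⟨x', hx', h⟩
      · simp only [Prod.mk.injEq] at h
        have := wst_le i'
        omega
      · simp only [Prod.mk.injEq] at h
        have := wst_le L
        omega
      · simp only [Prod.mk.injEq] at h
        obtain ⟨g1, g2, g3, g4, g5⟩ := h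
        have hxx : x' = x := by omega
        subst hxx
        have hsw : s = w j := by rw [← g2, ← e2]
        subst hsw
        have hnew : c (L + 1 + (j + 1)) = ⟨L + 2 + y, (L : ℤ) - 1 - ((j + 1 : ℕ) : ℤ), tp L w L⟩ := by
          rw [show L + 1 + (j + 1) = L + 1 + j + 1 by ring, e3, g3, g4, g5,
            update_same _ _ _ (tp_read w (by omega : j < L)), Config.mk.injEq]
          refine ⟨rfl, ?_, rfl⟩
          simp only [move]
          push_cast
          ring
        refine ⟨⟨y, hy, hnew⟩, fun i hi => ?_⟩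
        rcases Nat.lt_succ_iff_lt_or_eq.1 hi with hi | rfl
        · exact hR i hi
        · rw [hj0, hnew]
          simpa using hR'
      · simp only [Prod.mk.injEq] at h
        omega
  have hfar : ∀ j, j ≤ L → L + 1 + j < m := by
    intro j
    induction j with
    | zero =>
      intro _
      refine lt_of_le_of_ne (by omega) fun h => ?_
      obtain ⟨⟨x, hx, hj⟩, -⟩ := C 0 (by omega) (by omega)
      rw [← h, hj] at hm
      simp only at hm
      omega
    | succ j ih =>
      intro hj
      have h1 := ih (by omega)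
      refine lt_of_le_of_ne (by omega) fun h => ?_
      obtain ⟨⟨x, hx, hj⟩, -⟩ := C (j + 1) (by omega) (by omega)
      rw [← h, hj] at hm
      simp only at hm
      omega
  exact ⟨fun j => (c (L + 1 + j)).state - (L + 2), (C L le_rfl (hfar L le_rfl).le).2⟩

end Pool.Agent.L5helper90.DN
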