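import Pool.Agent.L5helper90.DN.Circ
import Pool.Agent.L5helper90.DN.Exp
import Pool.Agent.L5helper90.DN.Mach

/-!
# A family of halting machines that fools decomposable circuits
-/

set_option autoImplicit false

namespace Pool.Agent.L5helper90.DN

open Pool.Agent.L5helper58.KS Finset

section

variable {q : ℕ}

/-- The symbol of a pair (function, place). -/
def sym (c : Fin 6 × Fin (12 * q)) : ℕ := (finProdFinEquiv c : ℕ) + 2

theorem sym_inj {c d : Fin 6 × Fin (12 * q)} (h : sym c = sym d) : c = d := by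
  unfold sym at h
  exact finProdFinEquiv.injective (Fin.ext (by omega))

theorem sym_ne_zero (c : Fin 6 × Fin (12 * q)) : sym c ≠ 0 := by
  unfold sym
  omega

theorem sym_ne_one (c : Fin 6 × Fin (12 * q)) : sym c ≠ 1 := by
  unfold sym
  omega

theorem sym_lt (c : Fin 6 × Fin (12 * q)) : sym c < 72 * q + 2 := by
  unfold sym
  have := (finProdFinEquiv c).isLt
  omega

/-- The pairs tested, one after the other. -/
def tst (hq : 0 < q) (j : ℕ) : Fin 6 × Fin (12 * q) :=
  if h : 12 * q + j < 6 * (12 * q) then finProdFinEquiv.symm ⟨12 * q + j, h⟩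
  else (0, ⟨0, by omega⟩)

theorem exists_tst (hq : 0 < q) (c : Fin 6 × Fin (12 * q)) (hc : c.1 ≠ 0) :
    ∃ j < 60 * q, tst hq j = c := by
  have h1 := (finProdFinEquiv c).isLt
  have h2 : 12 * q ≤ (finProdFinEquiv c : ℕ) := by
    rw [finProdFinEquiv_apply_val]
    have : 1 ≤ (c.1 : ℕ) := Nat.one_le_iff_ne_zero.2 fun h => hc (Fin.ext h)
    nlinarith
  refine ⟨(finProdFinEquiv c : ℕ) - 12 * q, by omega, ?_⟩
  unfold tst
  rw [dif_pos (by omega), Equiv.symm_apply_eq]
  apply Fin.ext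
  simp only
  omega

/-- The word on the tape. -/
def word (hq : 0 < q) (f : Fin 6 × Fin (12 * q) → Fin (12 * q)) (t : ℕ) : ℕ :=
  if t % 4 = 0 then 1 else if t % 4 = 1 then sym ((0, (tst hq (t / 4)).2) : Fin 6 × Fin (12 * q))
  else if t % 4 = 2 then sym (tst hq (t / 4))
  else sym ((0, f (tst hq (t / 4))) : Fin 6 × Fin (12 * q))

theorem word0 (hq : 0 < q) (f : Fin 6 × Fin (12 * q) → Fin (12 * q)) (j : ℕ) :
    word hq f (4 * j) = 1 := by
  unfold word
  rw [if_pos (by omega)]

theorem word1 (hq : 0 < q) (f : Fin 6 × Fin (12 * q) → Fin (12 * q)) (j : ℕ) :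
    word hq f (4 * j + 1) = sym ((0, (tst hq j).2) : Fin 6 × Fin (12 * q)) := by
  unfold word
  rw [if_neg (by omega), if_pos (by omega), show (4 * j + 1) / 4 = j by omega]

theorem word2 (hq : 0 < q) (f : Fin 6 × Fin (12 * q) → Fin (12 * q)) (j : ℕ) :
    word hq f (4 * j + 2) = sym (tst hq j) := by
  unfold word
  rw [if_neg (by omega), if_neg (by omega), if_pos (by omega), show (4 * j + 2) / 4 = j by omega]

theorem word3 (hq : 0 < q) (f : Fin 6 × Fin (12 * q) → Fin (12 * q)) (j : ℕ) :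
    word hq f (4 * j + 3) = sym ((0, f (tst hq j)) : Fin 6 × Fin (12 * q)) := by
  unfold word
  rw [if_neg (by omega), if_neg (by omega), if_neg (by omega), show (4 * j + 3) / 4 = j by omega]

theorem word_cases (hq : 0 < q) (f : Fin 6 × Fin (12 * q) → Fin (12 * q)) (t : ℕ) :
    word hq f t = 1 ∨ ∃ c : Fin 6 × Fin (12 * q), word hq f t = sym c := by
  unfold word
  split_ifs
  · exact Or.inl rfl
  · exact Or.inr ⟨_, rfl⟩
  · exact Or.inr ⟨_, rfl⟩
  · exact Or.inr ⟨_, rfl⟩

theorem word_ne_zero (hq : 0 < q) (f : Fin 6 × Fin (12 * q) → Fin (12 * q)) (t : ℕ) :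
    word hq f t ≠ 0 := by
  rcases word_cases hq f t with h | ⟨c, h⟩
  · omega
  · rw [h]
    exact sym_ne_zero c

theorem word_lt (hq : 0 < q) (f : Fin 6 × Fin (12 * q) → Fin (12 * q)) (t : ℕ) :
    word hq f t < 72 * q + 2 := by
  rcases word_cases hq f t with h | ⟨c, h⟩
  · omega
  · rw [h]
    exact sym_lt c

/-- The relations: at each pair (function, place) an assignment of values to the places is used. -/
def Rel (f : Fin 6 × Fin (12 * q) → Fin (12 * q))
    (val : Fin 6 × Fin (12 * q) → Fin (12 * q) → ℕ) (s x y : ℕ) : Prop :=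
  s = 1 ∨ ∃ c, s = sym c ∧ x = val c c.2 ∧ y = val c (f c)

theorem rel_sym {f : Fin 6 × Fin (12 * q) → Fin (12 * q)}
    {val : Fin 6 × Fin (12 * q) → Fin (12 * q) → ℕ} {c : Fin 6 × Fin (12 * q)} {x y : ℕ} :
    Rel f val (sym c) x y ↔ x = val c c.2 ∧ y = val c (f c) := by
  constructor
  · rintro (h | ⟨d, hd, h⟩)
    · exact absurd h (sym_ne_one c)
    · rw [sym_inj hd]
      exact h
  · intro h
    exact Or.inr ⟨c, rfl, h⟩

/-- A walk forces the assignments to agree. -/
theorem agree_of_walk (hq : 0 < q) {f : Fin 6 × Fin (12 * q) → Fin (12 * q)}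
    (hf : ∀ v, f (0, v) = v) {val : Fin 6 × Fin (12 * q) → Fin (12 * q) → ℕ} {X : ℕ → ℕ}
    (hX : ∀ j < 240 * q, Rel f val (word hq f j) (X j) (X (j + 1)))
    (c : Fin 6 × Fin (12 * q)) :
    val (0, c.2) c.2 = val c c.2 ∧ val (0, f c) (f c) = val c (f c) := by
  by_cases hc : c.1 = 0
  · obtain ⟨i, v⟩ := c
    simp only at hc
    subst hc
    rw [hf]
    exact ⟨rfl, rfl⟩
  · obtain ⟨j, hj, rfl⟩ := exists_tst hq c hc
    have h1 := hX (4 * j + 1) (by omega)
    have h2 := hX (4 * j + 2) (by omega)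
    have h3 := hX (4 * j + 3) (by omega)
    rw [word1, rel_sym, hf] at h1
    rw [word2, rel_sym] at h2
    rw [word3, rel_sym, hf] at h3
    refine ⟨?_, ?_⟩
    · rw [← h2.1, ← h1.2]
    · rw [← h2.2, ← h3.1]

/-- Every symbol occurs in the word. -/
theorem exists_word (hq : 0 < q) (f : Fin 6 × Fin (12 * q) → Fin (12 * q))
    (c : Fin 6 × Fin (12 * q)) : ∃ j < 240 * q, word hq f j = sym c := by
  by_cases hc : c.1 = 0
  · obtain ⟨i, v⟩ := c
    simp only at hc
    subst hc
    obtain ⟨j, hj, h⟩ := exists_tst hq ((1, v) : Fin 6 × Fin (12 * q)) (by simp)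
    refine ⟨4 * j + 1, by omega, ?_⟩
    rw [word1, h]
  · obtain ⟨j, hj, rfl⟩ := exists_tst hq c hc
    exact ⟨4 * j + 2, by omega, word2 hq f j⟩

open Classical in
/-- The machine of an assignment. -/
noncomputable def tab (hq : 0 < q) (f : Fin 6 × Fin (12 * q) → Fin (12 * q)) (N v : ℕ)
    (a : Fin (12 * q) → Fin v) : Tab N → Bool :=
  fun e => decide (Allowed (240 * q) v (word hq f) (Rel f fun _ p => (a p : ℕ)) (code e))

theorem tab_iff (hq : 0 < q) (f : Fin 6 × Fin (12 * q) → Fin (12 * q)) (N v : ℕ)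
    (a : Fin (12 * q) → Fin v) (e : Tab N) : tab hq f N v a e = true ↔
      Allowed (240 * q) v (word hq f) (Rel f fun _ p => (a p : ℕ)) (code e) := by
  simp [tab]

theorem mem_of_allowed (hq : 0 < q) (f : Fin 6 × Fin (12 * q) → Fin (12 * q)) {N v : ℕ}
    (hN : 240 * q + 2 + v ≤ N) (a : Fin (12 * q) → Fin v) (t : Trans)
    (ht : Allowed (240 * q) v (word hq f) (Rel f fun _ p => (a p : ℕ)) t) :
    t ∈ (machineOf (tab hq f N v a)).1 := by
  rw [mem_machineOf]
  have key : ∃ e : Tab N, code e = t := by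
    have hv : 0 < v := Fin.pos (a ⟨0, by omega⟩)
    rcases ht with ⟨i, hi, h⟩ | ⟨x, hx, h⟩ | ⟨x, hx, y, hy, s, hs, hR, h⟩ | ⟨x, hx, h⟩
    · have h1 := wst_le i
      have h2 := wst_le (i + 1)
      have h3 := word_lt hq f (240 * q - 1 - i)
      exact ⟨(⟨wst i, by omega⟩, ⟨0, by omega⟩, ⟨wst (i + 1), by omega⟩,
        ⟨word hq f (240 * q - 1 - i), by omega⟩, some true), h.symm⟩
    · have h1 := wst_le (240 * q)
      exact ⟨(⟨wst (240 * q), by omega⟩, ⟨0, by omega⟩, ⟨240 * q + 2 + x, by omega⟩,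
        ⟨0, by omega⟩, some false), h.symm⟩
    · have h3 : s < 72 * q + 2 := by
        rcases hR with h | ⟨c, h, -⟩
        · omega
        · rw [h]
          exact sym_lt c
      exact ⟨(⟨240 * q + 2 + x, by omega⟩, ⟨s, by omega⟩, ⟨240 * q + 2 + y, by omega⟩,
        ⟨s, by omega⟩, some false), h.symm⟩
    · exact ⟨(⟨240 * q + 2 + x, by omega⟩, ⟨0, by omega⟩, ⟨1, by omega⟩,
        ⟨0, by omega⟩, none), h.symm⟩
  obtain ⟨e, rfl⟩ := key
  exact ⟨e, (tab_iff hq f N v a e).2 ht, rfl⟩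

/-- The machines of the family halt. -/
theorem tab_halts (hq : 0 < q) {f : Fin 6 × Fin (12 * q) → Fin (12 * q)}
    (hf : ∀ v, f (0, v) = v) {N v : ℕ}
    (hN : 240 * q + 2 + v ≤ N) (a : Fin (12 * q) → Fin v) :
    Halts (machineOf (tab hq f N v a)) (2 * (240 * q) + 2) := by
  set X : ℕ → ℕ := fun t => if t % 4 = 0 then (a (f (tst hq (t / 4 - 1))) : ℕ) else
    if t % 4 = 1 ∨ t % 4 = 2 then (a (tst hq (t / 4)).2 : ℕ) else (a (f (tst hq (t / 4))) : ℕ)
    with hX
  have hlt : ∀ t, X t < v := by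
    intro t
    rw [hX]
    simp only
    split_ifs <;> exact Fin.isLt _
  refine halts_of (X := X) (w := word hq f) ?_ ?_ ?_ ?_ ?_
  · simp [machineOf]
  · intro i hi
    exact mem_of_allowed hq f hN a _ (Or.inl ⟨i, hi, rfl⟩)
  · exact mem_of_allowed hq f hN a _ (Or.inr (Or.inl ⟨X 0, hlt 0, rfl⟩))
  · intro j hj
    refine mem_of_allowed hq f hN a _ (Or.inr (Or.inr (Or.inl ⟨X j, hlt j, X (j + 1), hlt (j + 1),
      word hq f j, word_ne_zero hq f j, ?_, rfl⟩)))
    obtain ⟨i, r, hr, rfl⟩ : ∃ i r, r < 4 ∧ j = 4 * i + r := ⟨j / 4, j % 4, by omega, by omega⟩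
    interval_cases r
    · rw [add_zero, word0]
      exact Or.inl rfl
    · rw [word1, rel_sym, hf]
      refine ⟨?_, ?_⟩
      · rw [hX]
        simp only
        rw [if_neg (by omega), if_pos (by omega), show (4 * i + 1) / 4 = i by omega]
      · rw [hX]
        simp only
        rw [if_neg (by omega), if_pos (by omega), show (4 * i + 1 + 1) / 4 = i by omega]
    · rw [word2, rel_sym]
      refine ⟨?_, ?_⟩
      · rw [hX]
        simp only
        rw [if_neg (by omega), if_pos (by omega), show (4 * i + 2) / 4 = i by omega]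
      · rw [hX]
        simp only
        rw [if_neg (by omega), if_neg (by omega), show (4 * i + 2 + 1) / 4 = i by omega]
    · rw [word3, rel_sym, hf]
      refine ⟨?_, ?_⟩
      · rw [hX]
        simp only
        rw [if_neg (by omega), if_neg (by omega), show (4 * i + 3) / 4 = i by omega]
      · rw [hX]
        simp only
        rw [if_pos (by omega), show (4 * i + 3 + 1) / 4 - 1 = i by omega]
  · exact mem_of_allowed hq f hN a _ (Or.inr (Or.inr (Or.inr ⟨X (240 * q), hlt _, rfl⟩)))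

/-- The place in the table of the transition for the pair `c`. -/
def pl (f : Fin 6 × Fin (12 * q) → Fin (12 * q)) {N v : ℕ} (hN : 240 * q + 2 + v ≤ N)
    (a : Fin (12 * q) → Fin v) (c : Fin 6 × Fin (12 * q)) : Tab N :=
  (⟨240 * q + 2 + a c.2, by have := (a c.2).isLt; omega⟩,
    ⟨sym c, by have := sym_lt c; have := (a c.2).isLt; omega⟩,
    ⟨240 * q + 2 + a (f c), by have := (a (f c)).isLt; omega⟩,
    ⟨sym c, by have := sym_lt c; have := (a c.2).isLt; omega⟩, some false)

theorem code_pl (f : Fin 6 × Fin (12 * q) → Fin (12 * q)) {N v : ℕ} (hN : 240 * q + 2 + v ≤ N)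
    (a : Fin (12 * q) → Fin v) (c : Fin 6 × Fin (12 * q)) :
    code (pl f hN a c) = (240 * q + 2 + (a c.2 : ℕ), sym c, 240 * q + 2 + (a (f c) : ℕ), sym c,
      some false) := rfl

theorem pl_inj (f : Fin 6 × Fin (12 * q) → Fin (12 * q)) {N v : ℕ} (hN : 240 * q + 2 + v ≤ N)
    (a b : Fin (12 * q) → Fin v) {c d : Fin 6 × Fin (12 * q)} (h : pl f hN a c = pl f hN b d) :
    c = d := by
  have h1 := congrArg code h
  rw [code_pl, code_pl] at h1
  simp only [Prod.mk.injEq] at h1
  exact sym_inj h1.2.1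

/-- An allowed transition for a pair `c` is the transition at its place. -/
theorem allowed_refine {f : Fin 6 × Fin (12 * q) → Fin (12 * q)} {hq : 0 < q} {N v : ℕ}
    (hN : 240 * q + 2 + v ≤ N) (a : Fin (12 * q) → Fin v) (e : Tab N)
    (h : Allowed (240 * q) v (word hq f) (Rel f fun _ p => (a p : ℕ)) (code e))
    (R : ℕ → ℕ → ℕ → Prop) (h1 : ∀ x y, R 1 x y)
    (hR : ∀ c, e = pl f hN a c → R (sym c) (a c.2) (a (f c))) :
    Allowed (240 * q) v (word hq f) R (code e) := by
  rcases h with h | h | ⟨x, hx, y, hy, s, hs, hR', h⟩ | h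
  · exact Or.inl h
  · exact Or.inr (Or.inl h)
  · refine Or.inr (Or.inr (Or.inl ⟨x, hx, y, hy, s, hs, ?_, h⟩))
    rcases hR' with rfl | ⟨c, rfl, hx', hy'⟩
    · exact h1 _ _
    · rw [hx', hy']
      refine hR c (code_injective ?_)
      rw [h, code_pl, hx', hy']
  · exact Or.inr (Or.inr (Or.inr h))

/-- A sound circuit rejects a machine of the family without one of the transitions. -/
theorem essential (hq : 0 < q) {f : Fin 6 × Fin (12 * q) → Fin (12 * q)} {N v : ℕ}
    (hN : 240 * q + 2 + v ≤ N) (a : Fin (12 * q) → Fin v) (c : Fin 6 × Fin (12 * q))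
    (z : Tab N → Bool) (h1 : ∀ e, e ≠ pl f hN a c → z e = tab hq f N v a e)
    (h2 : z (pl f hN a c) = false) (k : ℕ) : ¬ Halts (machineOf z) k := by
  intro hH
  have hM : ∀ t ∈ (machineOf z).1, Allowed (240 * q) v (word hq f)
      (fun s x y => Rel f (fun _ p => (a p : ℕ)) s x y ∧ s ≠ sym c) t := by
    intro t ht
    obtain ⟨e, he, rfl⟩ := (mem_machineOf z t).1 ht
    have hne : e ≠ pl f hN a c := by
      rintro rfl
      rw [h2] at he
      exact absurd he (by simp)
    rw [h1 e hne] at he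
    refine allowed_refine hN a e ((tab_iff hq f N v a e).1 he) _ (fun x y => ⟨Or.inl rfl, ?_⟩)
      fun d hd => ⟨rel_sym.2 ⟨rfl, rfl⟩, ?_⟩
    · exact (sym_ne_one c).symm
    · intro h
      rw [sym_inj h] at hd
      exact hne hd
  obtain ⟨X, hX⟩ := walk_of_halts (fun j _ => word_ne_zero hq f j) rfl hM hH
  obtain ⟨j, hj, h⟩ := exists_word hq f c
  exact (hX j hj).2 h

open Classical in
/-- If a mixture of two machines of the family halts, and both agree on which of their transitions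
are exchanged, then they agree at the inconsistent places. -/
theorem agree_of_mix (hq : 0 < q) {f : Fin 6 × Fin (12 * q) → Fin (12 * q)}
    (hf : ∀ v, f (0, v) = v) {N v : ℕ} (hN : 240 * q + 2 + v ≤ N) (a b : Fin (12 * q) → Fin v)
    (S : Set (Tab N)) (A : Finset (Fin 6 × Fin (12 * q))) (ha : ∀ c, c ∈ A ↔ pl f hN a c ∈ S)
    (hb : ∀ c, c ∈ A ↔ pl f hN b c ∈ S) (k : ℕ)
    (hH : Halts (machineOf (mix S (tab hq f N v b) (tab hq f N v a))) k) (p : Fin (12 * q))
    (hp : ∃ c, (c.2 = p ∨ f c = p) ∧ ¬ (c ∈ A ↔ ((0, p) : Fin 6 × Fin (12 * q)) ∈ A)) :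
    a p = b p := by
  set val : Fin 6 × Fin (12 * q) → Fin (12 * q) → ℕ :=
    fun c p => if c ∈ A then (b p : ℕ) else (a p : ℕ) with hval
  have hM : ∀ t ∈ (machineOf (mix S (tab hq f N v b) (tab hq f N v a))).1,
      Allowed (240 * q) v (word hq f) (Rel f val) t := by
    intro t ht
    obtain ⟨e, he, rfl⟩ := (mem_machineOf _ t).1 ht
    by_cases heS : e ∈ S
    · rw [mix_mem heS] at he
      refine allowed_refine hN b e ((tab_iff hq f N v b e).1 he) _ (fun x y => Or.inl rfl)
        fun c hc => rel_sym.2 ?_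
      have : c ∈ A := (hb c).2 (hc ▸ heS)
      simp [hval, this]
    · rw [mix_not_mem heS] at he
      refine allowed_refine hN a e ((tab_iff hq f N v a e).1 he) _ (fun x y => Or.inl rfl)
        fun c hc => rel_sym.2 ?_
      have : c ∉ A := fun h => heS (hc ▸ (ha c).1 h)
      simp [hval, this]
  obtain ⟨X, hX⟩ := walk_of_halts (fun j _ => word_ne_zero hq f j) rfl hM hH
  obtain ⟨c, hc, hcA⟩ := hp
  obtain ⟨e1, e2⟩ := agree_of_walk hq hf hX c
  have key : ∀ u, val (0, u) u = val c u → ¬ (c ∈ A ↔ ((0, u) : Fin 6 × Fin (12 * q)) ∈ A) →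
      a u = b u := by
    intro u hu hn
    rw [hval] at hu
    simp only at hu
    by_cases h1 : c ∈ A <;> by_cases h2 : ((0, u) : Fin 6 × Fin (12 * q)) ∈ A
    · exact absurd (iff_of_true h1 h2) hn
    · rw [if_neg h2, if_pos h1] at hu
      exact Fin.ext hu
    · rw [if_pos h2, if_neg h1] at hu
      exact Fin.ext hu.symm
    · exact absurd (iff_of_false h1 h2) hn
  rcases hc with rfl | rfl
  · exact key _ e1 hcA
  · exact key _ e2 hcA

end

end Pool.Agent.L5helper90.DN
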