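import Pool.Agent.L5helper90.DN.Fam

/-!
# The lower bound for decomposable circuits
-/

set_option autoImplicit false

namespace Pool.Agent.L5helper90.DN

open Pool.Agent.L5helper58.KS Finset Filter

open Classical in
/-- Assignments that agree on a set. -/
theorem card_agree {m v : ℕ} (T : Finset (Fin m → Fin v)) (D : Finset (Fin m))
    (h : ∀ a ∈ T, ∀ b ∈ T, ∀ p ∈ D, a p = b p) : T.card ≤ v ^ (m - D.card) := by
  have h1 : Fintype.card ({p : Fin m // p ∉ D} → Fin v) = v ^ (m - D.card) := by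
    rw [Fintype.card_fun, Fintype.card_fin, Fintype.card_subtype_compl, Fintype.card_fin,
      Fintype.card_coe]
  rw [← h1, ← Finset.card_univ]
  refine Finset.card_le_card_of_injOn (fun a p => a p.1) (fun a _ => by simp) ?_
  intro a ha b hb hab
  funext p
  by_cases hp : p ∈ D
  · exact h a ha b hb p hp
  · exact congrFun hab ⟨p, hp⟩

open Classical in
/-- The number of machines of the family that a sound decomposable circuit accepts. -/
theorem count {q : ℕ} (hq : 0 < q) {f : Fin 6 × Fin (12 * q) → Fin (12 * q)}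
    (hf : ∀ v, f (0, v) = v)
    (hexp : ∀ A : Finset (Fin 6 × Fin (12 * q)), 24 * q ≤ A.card → A.card ≤ 48 * q →
        q ≤ (univ.filter (fun v : Fin (12 * q) => ∃ c, (c.2 = v ∨ f c = v) ∧
          ¬ (c ∈ A ↔ ((0, v) : Fin 6 × Fin (12 * q)) ∈ A))).card)
    {N v : ℕ} (hv : 0 < v) (hN : 240 * q + 2 + v ≤ N) (C : Circ (Tab N)) (hC : C.Decomposable)
    (hs : ∀ x, C.Val x C.out → ∃ m, Halts (machineOf x) m) :
    (univ.filter (fun a : Fin (12 * q) → Fin v => C.Val (tab hq f N v a) C.out)).card ≤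
      v ^ (11 * q) * (C.size * 2 ^ (72 * q)) := by
  set S := univ.filter (fun a : Fin (12 * q) → Fin v => C.Val (tab hq f N v a) C.out) with hS
  have hex : ∀ a : Fin (12 * q) → Fin v, ∃ g : Fin C.size, a ∈ S →
      (C.Val (tab hq f N v a) g ∧ C.Ctx (tab hq f N v a) g ∧
        24 * q ≤ (univ.filter (fun c => pl f hN a c ∈ C.Vars g)).card ∧
        (univ.filter (fun c => pl f hN a c ∈ C.Vars g)).card ≤ 48 * q) := by
    intro a
    by_cases ha : a ∈ S
    · have ha' : C.Val (tab hq f N v a) C.out := by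
        rw [hS, mem_filter] at ha
        exact ha.2
      have hcard : ∀ B : Finset (Fin 6 × Fin (12 * q)),
          (B.image (pl f hN a)).card = B.card := fun B =>
        Finset.card_image_of_injective _ fun c d h => pl_inj f hN a a h
      obtain ⟨g, h1, h2, h3, h4⟩ := Circ.exists_balanced hC (x := tab hq f N v a)
        (univ.image (pl f hN a)) (by
          intro e he z hz1 hz2 hz3
          obtain ⟨c, -, rfl⟩ := mem_image.1 he
          obtain ⟨m, hm⟩ := hs z hz3
          exact essential hq hN a c z hz1 hz2 m hm) (T := 48 * q) (by omega) ha' (by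
          rw [hcard, Finset.card_univ, Fintype.card_prod, Fintype.card_fin, Fintype.card_fin]
          omega)
      have e : (univ.image (pl f hN a)).filter (· ∈ C.Vars g) =
          (univ.filter (fun c => pl f hN a c ∈ C.Vars g)).image (pl f hN a) := by
        rw [Finset.filter_image]
      rw [e, hcard] at h3 h4
      exact ⟨g, fun _ => ⟨h1, h2, by omega, h4⟩⟩
    · exact ⟨C.out, fun h => absurd h ha⟩
  choose g hg using hex
  set Φ : (Fin (12 * q) → Fin v) → Fin C.size × Finset (Fin 6 × Fin (12 * q)) :=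
    fun a => (g a, univ.filter (fun c => pl f hN a c ∈ C.Vars (g a))) with hΦ
  have h1 : S.card ≤ v ^ (11 * q) * (S.image Φ).card := by
    refine Finset.card_le_mul_card_image S _ ?_
    rintro ⟨g0, A0⟩ hmem
    obtain ⟨a0, ha0, h0⟩ := mem_image.1 hmem
    have hA0 : q ≤ (univ.filter (fun v : Fin (12 * q) => ∃ c, (c.2 = v ∨ f c = v) ∧
          ¬ (c ∈ A0 ↔ ((0, v) : Fin 6 × Fin (12 * q)) ∈ A0))).card := by
      rw [hΦ, Prod.mk.injEq] at h0
      obtain ⟨h01, h02⟩ := h0
      obtain ⟨-, -, b3, b4⟩ := hg a0 ha0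
      rw [h02] at b3 b4
      exact hexp A0 b3 b4
    refine (card_agree _ _ ?_).trans (Nat.pow_le_pow_right hv (?_ :
      12 * q - (univ.filter (fun v : Fin (12 * q) => ∃ c, (c.2 = v ∨ f c = v) ∧
          ¬ (c ∈ A0 ↔ ((0, v) : Fin 6 × Fin (12 * q)) ∈ A0))).card ≤ 11 * q))
    · intro a ha b hb p hp
      rw [mem_filter] at ha hb hp
      obtain ⟨haS, ha2⟩ := ha
      obtain ⟨hbS, hb2⟩ := hb
      rw [hΦ, Prod.mk.injEq] at ha2 hb2
      obtain ⟨ha21, ha22⟩ := ha2
      obtain ⟨hb21, hb22⟩ := hb2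
      obtain ⟨a1, a2, -, -⟩ := hg a haS
      obtain ⟨b1, b2, -, -⟩ := hg b hbS
      rw [ha21] at a1 a2 ha22
      rw [hb21] at b1 b2 hb22
      obtain ⟨m, hm⟩ := hs _ (a2 _ b1)
      refine agree_of_mix hq hf hN a b (C.Vars g0) A0 (fun c => ?_) (fun c => ?_) m hm p hp.2
      · rw [← ha22, mem_filter]
        exact ⟨fun h => h.2, fun h => ⟨mem_univ _, h⟩⟩
      · rw [← hb22, mem_filter]
        exact ⟨fun h => h.2, fun h => ⟨mem_univ _, h⟩⟩
    · omega
  refine h1.trans (Nat.mul_le_mul_left _ ?_)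
  refine (Finset.card_le_univ _).trans ?_
  rw [Fintype.card_prod, Fintype.card_fin, Fintype.card_finset, Fintype.card_prod,
    Fintype.card_fin, Fintype.card_fin, show 6 * (12 * q) = 72 * q by ring]

open Classical in
/-- For each `k` and each `θ < ⌊(k - 2) / 480⌋` there are families of machines with `n` states and
`n` symbols that halt within `k` steps, such that a decomposable circuit that accepts no machine that
runs for ever accepts only the fraction `size * n ^ (-θ)` of them. -/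
theorem family (k : ℕ) (hk : 482 ≤ k) (θ : ℝ) (hθ : θ < ((k - 2) / 480 : ℕ)) :
    ∀ᶠ n : ℕ in atTop, ∃ (Λ : Type) (_ : Fintype Λ) (_ : Nonempty Λ) (x : Λ → Tab n → Bool),
      (∀ l, Halts (machineOf (x l)) k) ∧
      ∀ C : Circ (Tab n), C.Decomposable →
        (∀ y, C.Val y C.out → ∃ m, Halts (machineOf y) m) →
        ((univ.filter (fun l => C.Val (x l) C.out)).card : ℝ) ≤
          C.size * (n : ℝ) ^ (-θ) * Fintype.card Λ := by
  set q := (k - 2) / 480 with hqdef
  have hq : 0 < q := Nat.div_pos (by omega) (by norm_num)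
  have hqk : 2 * (240 * q) + 2 ≤ k := by omega
  obtain ⟨f, hf, hexp⟩ := exists_pattern q hq
  have hlim : Tendsto (fun n : ℕ => (n : ℝ) ^ ((q : ℝ) - θ)) atTop atTop :=
    (tendsto_rpow_atTop (by linarith)).comp tendsto_natCast_atTop_atTop
  filter_upwards [hlim.eventually_ge_atTop ((2 : ℝ) ^ (73 * q)),
    eventually_ge_atTop (2 * (240 * q + 2) + 1)] with n h1 h2
  obtain ⟨v, hv⟩ : ∃ v, n = 240 * q + 2 + v := Nat.exists_eq_add_of_le (by omega)
  have hv0 : 0 < v := by omega
  have hn0 : (0 : ℝ) < n := by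
    have : 0 < n := by omega
    exact_mod_cast this
  have : Nonempty (Fin (12 * q) → Fin v) := ⟨fun _ => ⟨0, hv0⟩⟩
  refine ⟨Fin (12 * q) → Fin v, inferInstance, inferInstance,
    fun a => tab hq f n v a, fun a => ?_, fun C hC hs => ?_⟩
  · obtain ⟨m, hm, c, hc⟩ := tab_halts hq hf (N := n) hv.ge a
    exact ⟨m, hm.trans hqk, c, hc⟩
  · have h3 := count hq hf hexp hv0 hv.ge C hC hs
    have h4 : ((univ.filter (fun a : Fin (12 * q) → Fin v =>
        C.Val (tab hq f n v a) C.out)).card : ℝ) ≤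
        (v : ℝ) ^ (11 * q) * (C.size * 2 ^ (72 * q)) := by exact_mod_cast h3
    refine h4.trans ?_
    have hcard : (Fintype.card (Fin (12 * q) → Fin v) : ℝ) = (v : ℝ) ^ (11 * q) * (v : ℝ) ^ q := by
      rw [Fintype.card_fun, Fintype.card_fin, Fintype.card_fin, ← pow_add]
      push_cast
      congr 1
      ring
    rw [hcard]
    have h5 : (n : ℝ) / 2 ≤ v := by
      have : n ≤ 2 * v := by omega
      have h6 : (n : ℝ) ≤ 2 * v := by exact_mod_cast this
      linarith
    have h6 : (2 : ℝ) ^ (72 * q) ≤ (n : ℝ) ^ (-θ) * (v : ℝ) ^ q := by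
      have h7 : ((n : ℝ) / 2) ^ q ≤ (v : ℝ) ^ q := pow_le_pow_left₀ (by positivity) h5 q
      have h8 : (n : ℝ) ^ ((q : ℝ) - θ) = (n : ℝ) ^ (-θ) * (n : ℝ) ^ q := by
        rw [← Real.rpow_natCast, ← Real.rpow_add hn0]
        congr 1
        ring
      have h9 : (2 : ℝ) ^ (73 * q) = 2 ^ (72 * q) * 2 ^ q := by
        rw [← pow_add]
        congr 1
        ring
      calc (2 : ℝ) ^ (72 * q) = 2 ^ (73 * q) / 2 ^ q := by
            rw [h9]
            field_simp
        _ ≤ (n : ℝ) ^ ((q : ℝ) - θ) / 2 ^ q := by gcongr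
        _ = (n : ℝ) ^ (-θ) * ((n : ℝ) / 2) ^ q := by
            rw [h8, div_pow]
            ring
        _ ≤ (n : ℝ) ^ (-θ) * (v : ℝ) ^ q := by gcongr
    calc (v : ℝ) ^ (11 * q) * (C.size * 2 ^ (72 * q))
        ≤ (v : ℝ) ^ (11 * q) * (C.size * ((n : ℝ) ^ (-θ) * (v : ℝ) ^ q)) := by gcongr
      _ = C.size * (n : ℝ) ^ (-θ) * ((v : ℝ) ^ (11 * q) * (v : ℝ) ^ q) := by ring

/-- Decomposable circuits for `k`-step halting have at least `n ^ θ` gates, for all
`θ < ⌊(k - 2) / 480⌋` and all large `n`. -/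
theorem lower (k : ℕ) (hk : 482 ≤ k) (θ : ℝ) (hθ : θ < ((k - 2) / 480 : ℕ)) :
    ∀ᶠ n : ℕ in atTop, ∀ C : Circ (Tab n), C.Decomposable →
      (∀ x, Halts (machineOf x) k → C.Val x C.out) →
      (∀ x, C.Val x C.out → ∃ m, Halts (machineOf x) m) → (n : ℝ) ^ θ ≤ C.size := by
  classical
  filter_upwards [family k hk θ hθ, eventually_gt_atTop 0] with n hn hn0 C hC h1 h2
  obtain ⟨Λ, _, _, x, hx, hmain⟩ := hn
  have h3 := hmain C hC h2
  have h4 : (univ.filter (fun l => C.Val (x l) C.out)) = univ :=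
    filter_true_of_mem fun l _ => h1 _ (hx l)
  rw [h4, Finset.card_univ] at h3
  have h5 : (0 : ℝ) < Fintype.card Λ := by
    exact_mod_cast Fintype.card_pos
  have hn0' : (0 : ℝ) < n := by exact_mod_cast hn0
  have h6 : 1 ≤ C.size * (n : ℝ) ^ (-θ) := by
    by_contra h
    push Not at h
    nlinarith
  have h7 : (0 : ℝ) < (n : ℝ) ^ θ := Real.rpow_pos_of_pos hn0' _
  calc (n : ℝ) ^ θ = 1 * (n : ℝ) ^ θ := (one_mul _).symm
    _ ≤ C.size * (n : ℝ) ^ (-θ) * (n : ℝ) ^ θ := by gcongr
    _ = C.size := by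
        rw [mul_assoc, ← Real.rpow_add hn0']
        simp

end Pool.Agent.L5helper90.DN
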